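import Pool.Agent.MP_96f5a9_co.h16.IISpec2

/-!
Almost equal generators: the total deficit below the top.
-/

set_option autoImplicit false

namespace Pool.Agent.MP_96f5a9_co.H7

open Finset H51 H59 H80 WA H16

variable {ι : Type} [Fintype ι] [DecidableEq ι] {g : ι → ℕ} {T : Finset (ι → ℕ)} {m F : ℕ}

omit [DecidableEq ι] in
/-- Few points have a shifted depth just below a multiple of `m`. -/
lemma win_card (h : Md g T m F) (a c : ℕ) :
    (T.filter fun z => m ≤ (F + m - wt g z + a) % m + c).card ≤ c := by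
  have e := card_ll h fun l => m ≤ (l + a) % m + c
  simp only [Nat.mod_add_mod] at e
  rw [e]
  refine (card_le_card_of_injOn (fun l => m - 1 - (l + a) % m) (fun l hl => ?_)
    fun l hl l' hl' e => ?_).trans_eq (card_range c)
  · have b := (mem_filter.1 (mem_coe.1 hl)).2
    have := Nat.mod_lt (l + a) h.pos
    rw [mem_coe, mem_range]
    show m - 1 - (l + a) % m < c
    omega
  · have b1 := mem_range.1 (mem_filter.1 (mem_coe.1 hl)).1
    have b2 := mem_range.1 (mem_filter.1 (mem_coe.1 hl')).1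
    have c1 := Nat.mod_lt (l + a) h.pos
    have c2 := Nat.mod_lt (l' + a) h.pos
    have : (l + a) % m = (l' + a) % m := by
      simp only at e
      omega
    exact Nat.ModEq.eq_of_lt_of_lt (Nat.ModEq.add_right_cancel' a this) b1 b2

lemma mod_add_le (A d m : ℕ) : (A + d) % m ≤ A % m + d := by
  rw [← Nat.mod_add_mod]
  exact Nat.mod_le _ _

lemma fin {p N m ε G K W Y S Φ : ℝ} (hp : 0 < p) (hN : 0 ≤ N) (hm : 0 ≤ m) (hε : 0 ≤ ε)
    (hε' : 72 * ε ≤ 1) (hG : 0 ≤ G) (a : p * W ≤ G + 16 * N * K) (b : p * Y ≤ G + 2 * m * N)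
    (c : p * S ≤ m * N) (d : p * Φ ≤ N * G + 16 * ε * m * N ^ 2) :
    N * (4 * m * W + ε * (27 * m * Y + 14 * m * S)) + 2 * m * (Φ + S) ≤
      7 * m * (N / p) * G + m * (N ^ 2 / p) * (64 * K + 100 * ε * m) + 2 * m ^ 2 * (N / p) := by
  have e : 7 * m * (N / p) * G + m * (N ^ 2 / p) * (64 * K + 100 * ε * m) + 2 * m ^ 2 * (N / p) =
      (7 * m * N * G + m * N ^ 2 * (64 * K + 100 * ε * m) + 2 * m ^ 2 * N) / p := by
    ring
  rw [e, le_div_iff₀ hp]
  have a1 := mul_le_mul_of_nonneg_left a (show 0 ≤ N * m by positivity)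
  have a2 := mul_le_mul_of_nonneg_left b (show 0 ≤ N * m * ε by positivity)
  have a3 := mul_le_mul_of_nonneg_left c (show 0 ≤ N * m * ε by positivity)
  have a4 := mul_le_mul_of_nonneg_left d hm
  have a5 := mul_le_mul_of_nonneg_left c hm
  have a6 := mul_le_mul_of_nonneg_left hε' (show 0 ≤ N * m * G by positivity)
  have a7 : 0 ≤ N * m * G := by positivity
  linarith

/-- The points below the top in the window. -/
lemma cardW (h : Md g T m F) {s R R0 L : ℕ} (hR : R0 ≤ R) (hs : 2 * R ≤ s) {N : ℝ} (hN : 0 ≤ N)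
    (hdp : ∀ z ∈ T, (dp (Nr g s R0) z : ℝ) ≤ N) :
    (Fintype.card ι : ℝ) * (((T.filter fun z => ¬ F + m - wt g z < m).filter
      fun z => Win m s R L (F + m - wt g z)).card : ℕ) ≤
      Gam g T (F + m) m (Nr g s R0) + 16 * N * (L + 5 * R) := by
  set V := (T.filter fun z => m ≤ (F + m - wt g z + (s - R)) % m + (L + 2 * R)) ∪
    (T.filter fun z => m ≤ (F + m - wt g z + (s - R + (s - 2 * R))) % m + (L + 5 * R)) with hV
  have h1 := card_gam (g := g) (M := F + m) h.pos (Nr g s R0)
    ((T.filter fun z => ¬ F + m - wt g z < m).filter fun z => Win m s R L (F + m - wt g z)) V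
    ((filter_subset _ _).trans (filter_subset _ _))
    (fun y hy => not_lt.1 (mem_filter.1 (mem_filter.1 hy).1).2) fun y hy i hi e => by
      have b1 := (mem_filter.1 hi).2
      have b2 := h.top _ e
      have b3 := wt_ee g y i
      obtain ⟨d, hd⟩ : ∃ d, g i = s - R + d := ⟨g i - (s - R), by omega⟩
      have b4 : F + m - wt g y = F + m - wt g (y + ee i) + (s - R) + d := by omega
      rw [hV, mem_union, mem_filter, mem_filter]
      rcases (mem_filter.1 hy).2 with c | c
      · refine Or.inl ⟨e, ?_⟩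
        have := mod_add_le (F + m - wt g (y + ee i) + (s - R)) d m
        rw [b4] at c
        omega
      · refine Or.inr ⟨e, ?_⟩
        have := mod_add_le (F + m - wt g (y + ee i) + (s - R + (s - 2 * R))) d m
        rw [b4, show F + m - wt g (y + ee i) + (s - R) + d + (s - 2 * R) =
          F + m - wt g (y + ee i) + (s - R + (s - 2 * R)) + d by ring] at c
        omega
  have h2 : V.card ≤ 2 * (L + 5 * R) := by
    have a1 := win_card h (s - R) (L + 2 * R)
    have a2 := win_card h (s - R + (s - 2 * R)) (L + 5 * R)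
    refine (card_union_le _ _).trans ?_
    omega
  have h3 : ∑ z ∈ V, (dp (Nr g s R0) z : ℝ) ≤ V.card • N :=
    sum_le_card_nsmul _ _ _ fun z hz => hdp z (by
      rcases mem_union.1 hz with c | c <;> exact (mem_filter.1 c).1)
  rw [nsmul_eq_mul] at h3
  have h4 : (V.card : ℝ) ≤ 2 * (L + 5 * R) := by exact_mod_cast h2
  have h5 := mul_le_mul_of_nonneg_right h4 hN
  have h6 := (Nat.cast_le (α := ℝ)).2 h1
  push_cast at h6
  linarith

/-- The number of points below the top. -/
lemma cardY (h : Md g T m F) {s R R0 : ℕ} (hR : R0 ≤ R) :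
    (s - R) * (Fintype.card ι * (T.filter fun z => ¬ F + m - wt g z < m).card) ≤
      (s - R) * Gam g T (F + m) m (Nr g s R0) +
        2 * m * (Fintype.card ι * ∑ x ∈ T, (F + m - wt g x) / m) := by
  set Y := T.filter fun z => ¬ F + m - wt g z < m with hY
  have h1 := card_gam (g := g) (M := F + m) h.pos (Nr g s R0)
    (Y.filter fun z => F + m - wt g z < s - R) ∅ ((filter_subset _ _).trans (filter_subset _ _))
    (fun y hy => not_lt.1 (mem_filter.1 (mem_filter.1 hy).1).2) fun y hy i hi e => by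
      have b1 := (mem_filter.1 hi).2
      have b2 := h.top _ e
      have b3 := wt_ee g y i
      have b4 := (mem_filter.1 hy).2
      omega
  have h2 : (Y.filter fun z => ¬ F + m - wt g z < s - R).card * (s - R) ≤
      2 * m * ∑ x ∈ T, (F + m - wt g x) / m := by
    rw [← smul_eq_mul (card _), ← sum_const, mul_sum]
    refine (sum_le_sum fun z hz => ?_).trans
      (sum_le_sum_of_subset ((filter_subset _ _).trans (filter_subset _ _)))
    have b1 := not_lt.1 (mem_filter.1 hz).2
    have b2 := H36.le_two_floor h.pos (not_lt.1 (mem_filter.1 (mem_filter.1 hz).1).2)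
    rw [mul_assoc]
    omega
  have h3 := card_filter_add_card_filter_not (s := Y) fun z => F + m - wt g z < s - R
  rw [sum_empty, mul_zero, add_zero] at h1
  rw [← h3]
  linarith only [Nat.mul_le_mul_left (s - R) h1, Nat.mul_le_mul_left (Fintype.card ι) h2]

omit [DecidableEq ι] in
lemma wp_le (Z : Finset ι) (z : ι → ℕ) : wp g Z z ≤ wt g z :=
  sum_le_sum_of_subset (subset_univ _)

/-- The weight of the outlying factors below the top. -/
lemma sumZ (h : Md g T m F) (I Z : Finset ι) {N : ℝ} (hN : 0 ≤ N)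
    (hdp : ∀ z ∈ T, (dp I z : ℝ) ≤ N) :
    (Fintype.card ι : ℝ) * ∑ z ∈ T.filter (fun z => ¬ F + m - wt g z < m), (wp g Z z : ℝ) ≤
      (F + m : ℕ) * Gam g T (F + m) m I +
        16 * N * m * (Z.card * (∑ x ∈ T, (F + m - wt g x) / m : ℕ)) := by
  set Y := T.filter fun z => ¬ F + m - wt g z < m with hY
  have h1 := H80.live_sum (T := T) I Y T (wp g Z) fun _ _ _ _ e => e
  have h2 : ∑ y ∈ Y, Fintype.card ι * wp g Z y ≤ ∑ y ∈ Y,
      ((F + m) * ((F + m - wt g y) / m * (Fintype.card ι - 8 * live T I y)) +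
        8 * (live T I y * wp g Z y)) :=
    sum_le_sum fun y hy => by
      have a1 := Nat.mul_le_mul_right (wp g Z y)
        (show Fintype.card ι ≤ Fintype.card ι - 8 * live T I y + 8 * live T I y by omega)
      have a2 : wp g Z y ≤ (F + m) * ((F + m - wt g y) / m) :=
        ((wp_le Z y).trans (h.top y (mem_filter.1 hy).1)).trans
          (Nat.le_mul_of_pos_right _ (Nat.div_pos (not_lt.1 (mem_filter.1 hy).2) h.pos))
      linarith only [a1, Nat.mul_le_mul_left (Fintype.card ι - 8 * live T I y) a2]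
  have h3 : ∑ y ∈ Y, (F + m - wt g y) / m * (Fintype.card ι - 8 * live T I y) ≤
      Gam g T (F + m) m I := sum_le_sum_of_subset (filter_subset _ _)
  have h4 : ∑ z ∈ T, ∑ j ∈ I, z j * wp g Z (z - ee j) ≤ ∑ z ∈ T, dp I z * wp g Z z := by
    refine sum_le_sum fun z _ => ?_
    rw [dp, sum_mul]
    exact sum_le_sum fun j _ => Nat.mul_le_mul_left _
      (sum_le_sum fun i _ => Nat.mul_le_mul_right _ (Nat.sub_le _ _))
  have h5 : ∑ z ∈ T, wp g Z z ≤ Z.card * (2 * (m * ∑ x ∈ T, (F + m - wt g x) / m)) := by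
    unfold wp
    rw [sum_comm, ← smul_eq_mul, ← sum_const]
    refine sum_le_sum fun i _ => ?_
    rw [← sum_mul]
    exact H36.coord_le h.pos h.le h.down h.top i
  have h6 : ∑ z ∈ T, (dp I z : ℝ) * wp g Z z ≤ N * ∑ z ∈ T, (wp g Z z : ℝ) := by
    rw [mul_sum]
    exact sum_le_sum fun z hz => mul_le_mul_of_nonneg_right (hdp z hz) (Nat.cast_nonneg _)
  simp only [sum_add_distrib, ← mul_sum] at h2
  have h7 : Fintype.card ι * ∑ y ∈ Y, wp g Z y ≤
      (F + m) * Gam g T (F + m) m I + 8 * ∑ z ∈ T, dp I z * wp g Z z := by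
    linarith only [h1, h2, h4, Nat.mul_le_mul_left (F + m) h3]
  generalize ∑ x ∈ T, (F + m - wt g x) / m = n at *
  generalize F + m = M at *
  have h8 := (Nat.cast_le (α := ℝ)).2 h7
  have h9 := mul_le_mul_of_nonneg_left ((Nat.cast_le (α := ℝ)).2 h5) hN
  push_cast at h8 h9
  linarith

/-- row ERR -/
theorem errS : ErrStmt := by
  intro ι _ _ g γ T m F s R R0 t w gb ε N q Fr r qh err h
  have R1 := h.ref.R1
  have Rm := h.ref.Rm
  have ms := h.ref.ms
  have hgb := h.ref.pos
  have hsR : (0 : ℝ) < (s : ℝ) - R := by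
    have : (R : ℝ) < s := by exact_mod_cast (show R < s by omega)
    linarith
  have hsg : (s : ℝ) - R ≤ gb := by linarith [h.ref.gb1]
  have hC : (0 : ℝ) < (Nr g s R).card := by exact_mod_cast card_pos.2 h.ne
  have hCp : ((Nr g s R).card : ℝ) ≤ Fintype.card ι := by exact_mod_cast card_le_univ _
  have hp : (0 : ℝ) < Fintype.card ι := hC.trans_le hCp
  have hM0 : (0 : ℝ) ≤ (F + m : ℕ) := Nat.cast_nonneg _
  have hN : 0 ≤ N := le_of_mul_le_mul_right (by linarith [h.N1]) hsR
  have hε : 0 ≤ ε := le_of_mul_le_mul_right (by rw [h.eps, zero_mul]; positivity) hC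
  have hm : (0 : ℝ) ≤ m := Nat.cast_nonneg _
  have hMg : ((F + m : ℕ) : ℝ) ≤ N * gb := h.N1.trans (mul_le_mul_of_nonneg_left hsg hN)
  have hdp : ∀ z ∈ T, (dp (Nr g s R0) z : ℝ) ≤ N := fun z hz => by
    have a1 : dp (Nr g s R0) z * (s - R) ≤ F + m := by
      refine le_trans ?_ ((wp_le (Nr g s R0) z).trans (h.md.top z hz))
      rw [dp, sum_mul]
      exact sum_le_sum fun j hj => Nat.mul_le_mul_left _ (by
        have := (mem_filter.1 hj).2
        have := h.R0_le
        omega)
    have a2 := (Nat.cast_le (α := ℝ)).2 a1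
    rw [Nat.cast_mul, Nat.cast_sub (show R ≤ s by omega)] at a2
    exact le_of_mul_le_mul_right (a2.trans h.N1) hsR
  have a := cardW (L := 3 * R * t ^ 2) h.md h.R0_le (show 2 * R ≤ s by omega) hN hdp
  have b0 := (Nat.cast_le (α := ℝ)).2 (cardY (s := s) h.md h.R0_le)
  have d0 := sumZ h.md (Nr g s R0) (Nr g s R)ᶜ hN hdp
  have c0 : ∑ z ∈ T.filter (fun z => ¬ F + m - wt g z < m), fl m (F + m - wt g z) ≤
      m * (∑ x ∈ T, (F + m - wt g x) / m : ℕ) := by
    rw [Nat.cast_sum, mul_sum]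
    exact sum_le_sum_of_subset_of_nonneg (filter_subset _ _) fun _ _ _ => by
      unfold fl
      positivity
  have hn := (Nat.cast_le (α := ℝ)).2 h.hn
  have hN1 := h.N1
  have he := h.eps
  have hG : (0 : ℝ) ≤ Gam g T (F + m) m (Nr g s R0) := Nat.cast_nonneg _
  have hsum : ∑ z ∈ T.filter (fun z => ¬ F + m - wt g z < m),
      dfc g (F + m) m s R (3 * R * t ^ 2) gb ε N z =
      N * (4 * m * (((T.filter fun z => ¬ F + m - wt g z < m).filter
        fun z => Win m s R (3 * R * t ^ 2) (F + m - wt g z)).card : ℕ) +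
        ε * (27 * m * ((T.filter fun z => ¬ F + m - wt g z < m).card : ℕ) + 14 * m *
          ((∑ z ∈ T.filter (fun z => ¬ F + m - wt g z < m), fl m (F + m - wt g z)) / gb))) +
      2 * m * ((∑ z ∈ T.filter (fun z => ¬ F + m - wt g z < m), (wp g (Nr g s R)ᶜ z : ℝ)) / gb +
        (∑ z ∈ T.filter (fun z => ¬ F + m - wt g z < m), fl m (F + m - wt g z)) / gb) := by
    simp only [dfc, sum_add_distrib, ← mul_sum, ← sum_div, ← sum_filter, sum_const, nsmul_eq_mul]
    ring
  rw [hsum]
  rw [Nat.cast_add, Nat.cast_mul, Nat.cast_mul, Nat.cast_mul, Nat.cast_mul, Nat.cast_mul,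
    Nat.cast_mul, Nat.cast_sub (show R ≤ s by omega), Nat.cast_ofNat] at b0
  rw [Nat.cast_mul] at hn
  have hn0 : (0 : ℝ) ≤ (∑ x ∈ T, (F + m - wt g x) / m : ℕ) := Nat.cast_nonneg _
  generalize ((∑ x ∈ T, (F + m - wt g x) / m : ℕ) : ℝ) = n at *
  generalize ((F + m : ℕ) : ℝ) = M at *
  refine fin hp hN hm hε h.eps_le hG (by push_cast at a; exact a) ?_ ?_ ?_
  · refine le_of_mul_le_mul_left ?_ hsR
    linarith [mul_le_mul_of_nonneg_left (hn.trans hN1) hm]
  · rw [← mul_div_assoc, div_le_iff₀ hgb]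
    linarith [mul_le_mul_of_nonneg_left (hn.trans hMg) hm, mul_le_mul_of_nonneg_left c0 hp.le]
  · rw [← mul_div_assoc, div_le_iff₀ hgb]
    have e1 : ((Nr g s R)ᶜ.card : ℝ) * n ≤ ε * (N * gb) := by
      rw [← he, mul_assoc]
      exact mul_le_mul_of_nonneg_left
        ((mul_le_mul_of_nonneg_right hCp hn0).trans (hn.trans hMg)) hε
    linarith [mul_le_mul_of_nonneg_left e1 (show 0 ≤ N * m by positivity),
      mul_le_mul_of_nonneg_right hMg hG]

end Pool.Agent.MP_96f5a9_co.H7
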